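import Pool.Agent.Run7.h858.A3.All
import Pool.Agent.R807.Phase
import Pool.Agent.R807.Ratio

/-!
# Palindromic 3-braids `(s_1^A s_2^{-A})^n` with their axes: the real factors of the Kashaev
# invariants, for all exponents `A ≥ 1`
-/

set_option autoImplicit false

namespace Run7.h822.BA

open Finset Filter Topology
open Pool.Agent.W719.BX Pool.Agent.W715.VC Pool.Agent.R807.Phase

/-- the greatest volume of an angle structure of the bundle with monodromy `L^a R^a` -/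
noncomputable def VA (a : ℕ) : ℝ := sSup {W : ℝ | ∃ w, bAngleN a 1 w ∧ bvolN a 1 w = W}

lemma VA_spec {a : ℕ} (ha : 1 ≤ a) : 0 < VA a ∧
    (∀ n : ℕ, IsGreatest {W : ℝ | ∃ w, bAngleN a n w ∧ bvolN a n w = W} (n * VA a)) ∧
    Tendsto (fun N : ℕ => 2 * Real.pi / N *
      Real.log ‖(rep3 N (uA a ++ dual (uA a))).trace‖) atTop (𝓝 (VA a)) := by
  obtain ⟨W, h0, h1, h2⟩ := Run7.h858.A3.all_A ha
  have h3 : VA a = W := by
    have h4 := h1 1
    unfold VA
    rw [h4.csSup_eq]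
    push_cast
    ring
  rw [h3]
  exact ⟨h0, h1, h2⟩

/-- the main facts, for all exponents and all powers -/
theorem spec {A n : ℕ} (hA : 1 ≤ A) (hn : 1 ≤ n) :
    IsGreatest {W : ℝ | ∃ w, bAngleN A n w ∧ bvolN A n w = W} (n * VA A) ∧
    0 < (n : ℝ) * VA A ∧ (∀ᶠ N : ℕ in atTop, 0 < tN (uA A) n N) ∧
    Tendsto (fun N : ℕ => 2 * Real.pi / N * Real.log (tN (uA A) n N)) atTop
      (𝓝 (n * VA A)) := by
  obtain ⟨h0, h1, h2⟩ := VA_spec hA
  have hn' : (0 : ℝ) < n := by exact_mod_cast hn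
  have h3 : 0 < (n : ℝ) * VA A := mul_pos hn' h0
  obtain ⟨g1, g2⟩ := phase_main (hu_uA A) (by omega : n ≠ 0) h3
    (Run7.h858.A3.all_pow hA h0 h2 hn)
  exact ⟨h1 n, h3, g1, g2⟩

end Run7.h822.BA
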